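import Pool.Agent.Lib.H84T.Blan2
import Pool.Agent.Lib.H84T.Blan3
import Pool.Agent.Lib.H84T.Blan4

/-!
# Shortest cycle covers versus Chinese postman tours (MP_b9ebd9_co, Q1): disproof

Q1 asks whether every `3`-connected graph `G` with `SCC(G) = CPP(G)` has the cycle cover property.
A Blanusa snark `G` (18 vertices, cubic, `3`-connected and cyclically `4`-edge-connected) is a
counterexample: `SCC(G) = CPP(G) = 36`, but the weight which is `2` on a suitable perfect matching
and `1` elsewhere is eulerian and admits no cycle cover. (The weight comes from a perfect matching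
of the Petersen graph; the smaller Tietze graph, in `Lib/H84T/Tietze.lean`, is a counterexample too,
but it has a non-trivial `3`-edge-cut.) The definitions are in `Lib/H84T/Tietze.lean` and, for
cyclic edge connectivity, in `Lib/H84T/Blan1.lean`.
-/

set_option autoImplicit false

namespace Pool.Agent.Results.MP_b9ebd9_co.BlanusaDisproof

open SimpleGraph Pool.Agent.Lib.H84T

/-- **Disproof of Q1.** There is a cubic graph `G` on 18 vertices that is `3`-connected and
cyclically `4`-edge-connected, has `SCC(G) = CPP(G) = 36` and does not have the cycle cover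
property. -/
theorem result : ∃ G : SimpleGraph (Fin 18), IsThreeConnected G ∧
    IsCyclicallyFourEdgeConnected G ∧ (∀ v, (G.neighborSet v).ncard = 3) ∧
    CPP G = 36 ∧ SCC G = 36 ∧ ¬ HasCycleCoverProperty G := by
  refine ⟨blan, threeConn_blan, blan_cyc, ?_, b4_CPP, b4_SCC, ?_⟩
  · intro v
    rw [Set.ncard_eq_toFinset_card', Set.toFinset_card, SimpleGraph.card_neighborSet_eq_degree]
    exact b4_deg v
  · intro h
    exact b3_not_coverable (h w1 b3_eulerian)

end Pool.Agent.Results.MP_b9ebd9_co.BlanusaDisproof
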